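import Pool.Agent.Helper61.QE.St2

/-!
# Project QD, PART E, module QUA: squared cross ratios
-/

open MeasureTheory Set Filter Topology Complex
open scoped ContDiff ComplexConjugate ENNReal

namespace Pool.Agent.Helper70.QE

open Pool.Agent.Helper68.QC Pool.Agent.Helper61.QE

private lemma alg {d0 d1 d2 d3 a0 a1 a2 a3 b0 b1 b2 b3 : ℂ} (h1 : a0 - a2 ≠ 0) (h2 : a1 - a3 ≠ 0)
    (h3 : b0 - b1 ≠ 0) (h4 : b2 - b3 ≠ 0) (h5 : b0 - b2 ≠ 0) (h6 : b1 - b3 ≠ 0) :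
    (d0 * d1 * (a0 - a1) ^ 2 / (b0 - b1) ^ 2) * (d2 * d3 * (a2 - a3) ^ 2 / (b2 - b3) ^ 2) *
      ((b0 - b1) * (b2 - b3) / ((b0 - b2) * (b1 - b3))) ^ 2 =
    (d0 * d2 * (a0 - a2) ^ 2 / (b0 - b2) ^ 2) * (d1 * d3 * (a1 - a3) ^ 2 / (b1 - b3) ^ 2) *
      ((a0 - a1) * (a2 - a3) / ((a0 - a2) * (a1 - a3))) ^ 2 := by
  generalize a0 - a2 = u at *
  generalize a1 - a3 = v at *
  generalize b0 - b1 = w at *
  generalize b2 - b3 = x at *
  generalize b0 - b2 = y at *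
  generalize b1 - b3 = z at *
  field_simp

theorem pQUA (hGDQ : Pool.Agent.Helper61.QE.StGDQ) : Pool.Agent.Helper61.QE.StQUA := by
  intro Γ _ s F h t0 G N R R' U P ν Ri Ri' hs hF ht hSq hL x hx hxne
  have hev := hGDQ Γ s F h t0 G N R R' U hs hF ht hSq hL.le x hx hxne
  have hxn : ∀ i, ‖x i‖ ≤ ∑ i, ‖x i‖ := fun i =>
    Finset.single_le_sum (f := fun i => ‖x i‖) (fun _ _ => norm_nonneg _) (Finset.mem_univ i)
  have hunif := hL.ncon ((∑ i, ‖x i‖) + 1)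
  rw [Metric.tendstoUniformlyOn_iff] at hunif
  have key : ∀ j : ℕ, ∃ (n : ℕ) (a : Fin 4 → ℂ), (∀ i, ‖a i - x i‖ ≤ 1 / ((j : ℝ) + 1) / 2) ∧
      (∀ i, ‖nq (N n) (a i) - nq ν (a i)‖ ≤ 1 / ((j : ℝ) + 1) / 2) ∧
      ∀ i k, i ≠ k → ‖deriv (nq (N n)) (a i) * deriv (nq (N n)) (a k) * (a i - a k) ^ 2 /
        (nq (N n) (a i) - nq (N n) (a k)) ^ 2 - 1‖ ≤ 1 / ((j : ℝ) + 1) / 2 := by
    intro j
    have hpos : 0 < 1 / ((j : ℝ) + 1) / 2 := by positivity
    have hle : 1 / ((j : ℝ) + 1) / 2 ≤ 1 := by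
      rw [div_div, div_le_one (by positivity)]
      have : (0 : ℝ) ≤ j := j.cast_nonneg
      linarith
    obtain ⟨n, ⟨a, ha, hK⟩, hn⟩ := ((hev _ hpos _ hpos).and (hunif _ hpos)).exists
    have hax : ∀ i, ‖a i - x i‖ < 1 / ((j : ℝ) + 1) / 2 := fun i => by
      have := (ha i).2
      rwa [Metric.mem_ball, dist_eq_norm] at this
    refine ⟨n, a, fun i => (hax i).le, fun i => ?_, fun i k hik => (hK i k hik).le⟩
    have h1 := hn (a i) (by
      rw [mem_closedBall_zero_iff]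
      have h2 : ‖a i‖ ≤ ‖a i - x i‖ + ‖x i‖ := by
        have := norm_add_le (a i - x i) (x i)
        rwa [sub_add_cancel] at this
      linarith [hax i, hxn i])
    rw [dist_comm, dist_eq_norm] at h1
    exact h1.le
  choose n a h1 h2 h3 using key
  have hδ : Tendsto (fun j : ℕ => 1 / ((j : ℝ) + 1) / 2) atTop (𝓝 0) := by
    have := (tendsto_one_div_add_atTop_nhds_zero_nat (𝕜 := ℝ)).div_const 2
    simpa using this
  have hδ1 : ∀ j : ℕ, 1 / ((j : ℝ) + 1) / 2 < 1 := fun j => by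
    rw [div_div, div_lt_one (by positivity)]
    have : (0 : ℝ) ≤ j := j.cast_nonneg
    linarith
  have ha : ∀ i, Tendsto (fun j => a j i) atTop (𝓝 (x i)) := fun i =>
    tendsto_iff_norm_sub_tendsto_zero.2
      (squeeze_zero (fun j => norm_nonneg _) (fun j => h1 j i) hδ)
  have hb : ∀ i, Tendsto (fun j => nq (N (n j)) (a j i)) atTop (𝓝 (nq ν (x i))) := fun i => by
    have e1 : Tendsto (fun j => nq (N (n j)) (a j i) - nq ν (a j i)) atTop (𝓝 0) := by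
      rw [tendsto_zero_iff_norm_tendsto_zero]
      exact squeeze_zero (fun j => norm_nonneg _) (fun j => h2 j i) hδ
    have e2 : Tendsto (fun j => nq ν (a j i)) atTop (𝓝 (nq ν (x i))) :=
      ((nq ν).continuous.tendsto (x i)).comp (ha i)
    have e3 := e1.add e2
    rw [zero_add] at e3
    refine e3.congr fun j => ?_
    ring
  have hK : ∀ i k, i ≠ k → Tendsto (fun j => deriv (nq (N (n j))) (a j i) *
      deriv (nq (N (n j))) (a j k) * (a j i - a j k) ^ 2 /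
        (nq (N (n j)) (a j i) - nq (N (n j)) (a j k)) ^ 2) atTop (𝓝 1) := fun i k hik =>
    tendsto_iff_norm_sub_tendsto_zero.2
      (squeeze_zero (fun j => norm_nonneg _) (fun j => h3 j i k hik) hδ)
  have hKne : ∀ j i k, i ≠ k → deriv (nq (N (n j))) (a j i) *
      deriv (nq (N (n j))) (a j k) * (a j i - a j k) ^ 2 /
        (nq (N (n j)) (a j i) - nq (N (n j)) (a j k)) ^ 2 ≠ 0 := by
    intro j i k hik h0
    have e1 := h3 j i k hik
    rw [h0, zero_sub, norm_neg, norm_one] at e1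
    linarith [hδ1 j]
  have hane : ∀ j i k, i ≠ k → a j i - a j k ≠ 0 := by
    intro j i k hik h0
    apply hKne j i k hik
    rw [h0]
    simp
  have hbne : ∀ j i k, i ≠ k → nq (N (n j)) (a j i) - nq (N (n j)) (a j k) ≠ 0 := by
    intro j i k hik h0
    apply hKne j i k hik
    rw [h0]
    simp
  have hxs : ∀ i k, i ≠ k → x i - x k ≠ 0 := fun i k hik => sub_ne_zero.2 (hxne i k hik)
  have hφs : ∀ i k, i ≠ k → nq ν (x i) - nq ν (x k) ≠ 0 := fun i k hik =>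
    sub_ne_zero.2 fun h0 => hxne i k hik ((nq ν).injective h0)
  have L1 : Tendsto (fun j => ((nq (N (n j)) (a j 0) - nq (N (n j)) (a j 1)) *
      (nq (N (n j)) (a j 2) - nq (N (n j)) (a j 3)) /
      ((nq (N (n j)) (a j 0) - nq (N (n j)) (a j 2)) *
        (nq (N (n j)) (a j 1) - nq (N (n j)) (a j 3)))) ^ 2) atTop
      (𝓝 (((nq ν (x 0) - nq ν (x 1)) * (nq ν (x 2) - nq ν (x 3)) /
      ((nq ν (x 0) - nq ν (x 2)) * (nq ν (x 1) - nq ν (x 3)))) ^ 2)) :=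
    ((((hb 0).sub (hb 1)).mul ((hb 2).sub (hb 3))).div (((hb 0).sub (hb 2)).mul
      ((hb 1).sub (hb 3))) (mul_ne_zero (hφs 0 2 (by decide)) (hφs 1 3 (by decide)))).pow 2
  have L2 : Tendsto (fun j => ((a j 0 - a j 1) * (a j 2 - a j 3) /
      ((a j 0 - a j 2) * (a j 1 - a j 3))) ^ 2) atTop
      (𝓝 (((x 0 - x 1) * (x 2 - x 3) / ((x 0 - x 2) * (x 1 - x 3))) ^ 2)) :=
    ((((ha 0).sub (ha 1)).mul ((ha 2).sub (ha 3))).div (((ha 0).sub (ha 2)).mul
      ((ha 1).sub (ha 3))) (mul_ne_zero (hxs 0 2 (by decide)) (hxs 1 3 (by decide)))).pow 2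
  have T1 := ((hK 0 1 (by decide)).mul (hK 2 3 (by decide))).mul L1
  have T2 := ((hK 0 2 (by decide)).mul (hK 1 3 (by decide))).mul L2
  have T3 := T1.congr fun j => alg (hane j 0 2 (by decide)) (hane j 1 3 (by decide))
    (hbne j 0 1 (by decide)) (hbne j 2 3 (by decide)) (hbne j 0 2 (by decide))
    (hbne j 1 3 (by decide))
  have T4 := tendsto_nhds_unique T2 T3
  rw [one_mul, one_mul, one_mul] at T4
  exact T4

end Pool.Agent.Helper70.QE
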